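import Pool.Agent.W443.J6.Stms

/-! The differential equation for the leading forms of a Jacobian pair, from the one for the
twisted bracket. -/

set_option autoImplicit false

open MvPolynomial Pool.Agent.H938R2.JC Pool.Agent.W443.J5 Pool.Agent.W443.J6

namespace Pool.Agent.W696.J6

universe u

variable {k : Type u} [Field k]

/-- The weight of an exponent. -/
def wt (w0 w1 : ℤ) (m : Fin 2 →₀ ℕ) : ℤ := w0 * (m 0 : ℤ) + w1 * (m 1 : ℤ)

/-- Reversed homogenisation of degree `K`. -/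
noncomputable def sh (w0 w1 K : ℤ) :
    MvPolynomial (Fin 2) k →ₗ[k] MvPolynomial (Fin 2) k :=
  (MvPolynomial.basisMonomials (Fin 2) k).constr k
    fun r => monomial (e (K - wt w0 w1 r).toNat (r 1)) 1

theorem sh_monomial (w0 w1 K : ℤ) (r : Fin 2 →₀ ℕ) (a : k) :
    sh w0 w1 K (monomial r a) = monomial (e (K - wt w0 w1 r).toNat (r 1)) a := by
  have h1 : (monomial r a : MvPolynomial (Fin 2) k) = a • (basisMonomials (Fin 2) k) r := by
    rw [coe_basisMonomials, smul_monomial, smul_eq_mul, mul_one]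
  rw [h1, map_smul, sh, Module.Basis.constr_basis, smul_monomial, smul_eq_mul, mul_one]

theorem sh_sum (w0 w1 K : ℤ) (f : MvPolynomial (Fin 2) k) :
    sh w0 w1 K f = ∑ m ∈ f.support, monomial (e (K - wt w0 w1 m).toNat (m 1)) (coeff m f) := by
  conv_lhs => rw [f.as_sum]
  rw [map_sum]
  exact Finset.sum_congr rfl fun m _ => sh_monomial w0 w1 K m _

theorem X1_BB (D E : ℤ) (f g : MvPolynomial (Fin 2) k) :
    X 1 * BB D E f g = (X 0 * pderiv 0 f) * (X 1 * pderiv 1 g) -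
      (X 1 * pderiv 1 f) * (X 0 * pderiv 0 g) - C (D : k) * f * (X 1 * pderiv 1 g) +
      C (E : k) * g * (X 1 * pderiv 1 f) := by
  unfold BB J
  ring

theorem XX_J (f g : MvPolynomial (Fin 2) k) :
    X 0 * X 1 * J f g = (X 0 * pderiv 0 f) * (X 1 * pderiv 1 g) -
      (X 1 * pderiv 1 f) * (X 0 * pderiv 0 g) := by
  unfold J
  ring

theorem BB_monomial (D E : ℤ) (m n : Fin 2 →₀ ℕ) (a b : k) :
    X 1 * BB D E (monomial m a) (monomial n b) =
      monomial (m + n) (((m 0 : k) * (n 1 : k) - (m 1 : k) * (n 0 : k) - (D : k) * (n 1 : k) +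
        (E : k) * (m 1 : k)) * (a * b)) := by
  rw [X1_BB]
  simp only [X_mul_pderiv_monomial, nsmul_eq_mul, ← C_eq_coe_nat, C_mul_monomial, monomial_mul,
    add_comm n m]
  rw [← map_sub, ← map_sub, ← map_add]
  congr 1
  ring

theorem XXJ_monomial (m n : Fin 2 →₀ ℕ) (a b : k) :
    X 0 * X 1 * J (monomial m a) (monomial n b) =
      monomial (m + n) (((m 0 : k) * (n 1 : k) - (m 1 : k) * (n 0 : k)) * (a * b)) := by
  rw [XX_J]
  simp only [X_mul_pderiv_monomial, nsmul_eq_mul, ← C_eq_coe_nat, C_mul_monomial, monomial_mul]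
  rw [← map_sub]
  congr 1
  ring

/-- The defect of the main identity. -/
noncomputable def Df (w0 w1 D E : ℤ) (f g : MvPolynomial (Fin 2) k) : MvPolynomial (Fin 2) k :=
  X 1 * BB D E (sh w0 w1 D f) (sh w0 w1 E g) +
    C (w0 : k) * sh w0 w1 (D + E) (X 0 * X 1 * J f g)

theorem Df_add_left (w0 w1 D E : ℤ) (f f' g : MvPolynomial (Fin 2) k) :
    Df w0 w1 D E (f + f') g = Df w0 w1 D E f g + Df w0 w1 D E f' g := by
  unfold Df
  have h : X 0 * X 1 * J (f + f') g = X 0 * X 1 * J f g + X 0 * X 1 * J f' g := by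
    unfold J
    simp only [map_add]
    ring
  rw [h, map_add, map_add]
  unfold BB J
  simp only [map_add]
  ring

theorem Df_add_right (w0 w1 D E : ℤ) (f g g' : MvPolynomial (Fin 2) k) :
    Df w0 w1 D E f (g + g') = Df w0 w1 D E f g + Df w0 w1 D E f g' := by
  unfold Df
  have h : X 0 * X 1 * J f (g + g') = X 0 * X 1 * J f g + X 0 * X 1 * J f g' := by
    unfold J
    simp only [map_add]
    ring
  rw [h, map_add, map_add]
  unfold BB J
  simp only [map_add]
  ring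

theorem Df_monomial (w0 w1 D E : ℤ) (m n : Fin 2 →₀ ℕ) (a b : k) (hm : wt w0 w1 m ≤ D)
    (hn : wt w0 w1 n ≤ E) : Df w0 w1 D E (monomial m a) (monomial n b) = 0 := by
  unfold Df
  rw [sh_monomial, sh_monomial, BB_monomial, XXJ_monomial, sh_monomial, C_mul_monomial]
  obtain ⟨p, hp⟩ := Int.eq_ofNat_of_zero_le (sub_nonneg.2 hm)
  obtain ⟨q, hq⟩ := Int.eq_ofNat_of_zero_le (sub_nonneg.2 hn)
  have hpq : D + E - wt w0 w1 (m + n) = ((p + q : ℕ) : ℤ) := by
    have : wt w0 w1 (m + n) = wt w0 w1 m + wt w0 w1 n := by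
      unfold wt
      simp only [Finsupp.add_apply]
      push_cast
      ring
    rw [this]
    push_cast
    linarith
  rw [hp, hq, hpq, Int.toNat_natCast, Int.toNat_natCast, Int.toNat_natCast]
  have he : e p (m 1) + e q (n 1) = e (p + q) ((m + n) 1) := by
    rw [ext_iff']
    simp
  rw [he, ← map_add]
  have hp' : (p : k) = (D : k) - ((w0 : k) * (m 0 : k) + (w1 : k) * (m 1 : k)) := by
    have : ((D - wt w0 w1 m : ℤ) : k) = ((p : ℤ) : k) := by rw [hp]
    unfold wt at this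
    push_cast at this
    rw [this]
  have hq' : (q : k) = (E : k) - ((w0 : k) * (n 0 : k) + (w1 : k) * (n 1 : k)) := by
    have : ((E - wt w0 w1 n : ℤ) : k) = ((q : ℤ) : k) := by rw [hq]
    unfold wt at this
    push_cast at this
    rw [this]
  have hz : (((e p (m 1) 0 : ℕ) : k) * ((e q (n 1) 1 : ℕ) : k) -
      ((e p (m 1) 1 : ℕ) : k) * ((e q (n 1) 0 : ℕ) : k) - (D : k) * ((e q (n 1) 1 : ℕ) : k) +
        (E : k) * ((e p (m 1) 1 : ℕ) : k)) * (a * b) +
      (w0 : k) * (((m 0 : k) * (n 1 : k) - (m 1 : k) * (n 0 : k)) * (a * b)) = 0 := by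
    simp only [e_zero, e_one]
    rw [hp', hq']
    ring
  rw [hz, map_zero]

theorem Df_eq_zero (w0 w1 D E : ℤ) (f g : MvPolynomial (Fin 2) k)
    (hf : ∀ m, coeff m f ≠ 0 → wt w0 w1 m ≤ D) (hg : ∀ m, coeff m g ≠ 0 → wt w0 w1 m ≤ E) :
    Df w0 w1 D E f g = 0 := by
  have h1 : ∀ (s : Finset (Fin 2 →₀ ℕ)) (h : (Fin 2 →₀ ℕ) → MvPolynomial (Fin 2) k)
      (g : MvPolynomial (Fin 2) k), Df w0 w1 D E (∑ m ∈ s, h m) g =
        ∑ m ∈ s, Df w0 w1 D E (h m) g := by
    intro s h g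
    exact map_sum (AddMonoidHom.mk' (fun f => Df w0 w1 D E f g)
      (fun a b => Df_add_left w0 w1 D E a b g)) h s
  have h2 : ∀ (s : Finset (Fin 2 →₀ ℕ)) (h : (Fin 2 →₀ ℕ) → MvPolynomial (Fin 2) k)
      (f : MvPolynomial (Fin 2) k), Df w0 w1 D E f (∑ m ∈ s, h m) =
        ∑ m ∈ s, Df w0 w1 D E f (h m) := by
    intro s h f
    exact map_sum (AddMonoidHom.mk' (fun g => Df w0 w1 D E f g)
      (fun a b => Df_add_right w0 w1 D E f a b)) h s
  rw [f.as_sum, g.as_sum, h1]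
  refine Finset.sum_eq_zero fun m hm => ?_
  rw [h2]
  refine Finset.sum_eq_zero fun n hn => ?_
  exact Df_monomial w0 w1 D E m n _ _ (hf m (mem_support_iff.1 hm)) (hg n (mem_support_iff.1 hn))

theorem ev0_monomial (i j : ℕ) (a : k) :
    ev0 (monomial (e i j) a) = if i = 0 then Polynomial.C a * Polynomial.X ^ j else 0 := by
  unfold ev0
  rw [aeval_monomial, Finsupp.prod_fintype _ _ (by simp), Fin.prod_univ_two]
  simp only [Matrix.cons_val_zero, Matrix.cons_val_one, Polynomial.algebraMap_eq, e_zero, e_one]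
  split_ifs with h
  · rw [h, pow_zero, one_mul]
  · rw [zero_pow h, zero_mul, mul_zero]

theorem dh_sum (w0 w1 D : ℤ) (f : MvPolynomial (Fin 2) k) :
    dh w0 w1 D f = ∑ m ∈ f.support, if wt w0 w1 m = D then
      Polynomial.C (coeff m f) * Polynomial.X ^ (m 1) else 0 := by
  unfold dh part
  rw [map_sum, Finset.sum_filter]
  refine Finset.sum_congr rfl fun m _ => ?_
  show (if wt w0 w1 m = D then _ else 0) = _
  split_ifs with h
  · rw [aeval_monomial, Finsupp.prod_fintype _ _ (by simp), Fin.prod_univ_two]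
    simp only [Matrix.cons_val_zero, Matrix.cons_val_one, Polynomial.algebraMap_eq, one_pow,
      one_mul]
  · rfl

theorem ev0_sh (w0 w1 D : ℤ) (f : MvPolynomial (Fin 2) k)
    (hf : ∀ m, coeff m f ≠ 0 → wt w0 w1 m ≤ D) : ev0 (sh w0 w1 D f) = dh w0 w1 D f := by
  rw [dh_sum, sh_sum]
  have : ev0 (∑ m ∈ f.support, monomial (e (D - wt w0 w1 m).toNat (m 1)) (coeff m f)) =
      ∑ m ∈ f.support, ev0 (monomial (e (D - wt w0 w1 m).toNat (m 1)) (coeff m f)) := by
    unfold ev0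
    rw [map_sum]
  rw [this]
  refine Finset.sum_congr rfl fun m hm => ?_
  rw [ev0_monomial]
  have h1 := hf m (mem_support_iff.1 hm)
  have h2 : (D - wt w0 w1 m).toNat = 0 ↔ wt w0 w1 m = D := by
    rw [Int.toNat_eq_zero]
    constructor
    · intro h
      linarith
    · intro h
      linarith
  by_cases h3 : wt w0 w1 m = D
  · rw [if_pos (h2.2 h3), if_pos h3]
  · rw [if_neg (fun h => h3 (h2.1 h)), if_neg h3]

theorem dh_ne_zero (w0 w1 D : ℤ) (hw0 : 0 < w0) (f : MvPolynomial (Fin 2) k)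
    (h : ∃ m, coeff m f ≠ 0 ∧ wt w0 w1 m = D) : dh w0 w1 D f ≠ 0 := by
  obtain ⟨m, hm, hmD⟩ := h
  intro h0
  have h1 : (dh w0 w1 D f).coeff (m 1) = coeff m f := by
    rw [dh_sum, Polynomial.finsetSum_coeff, Finset.sum_eq_single m]
    · rw [if_pos hmD, Polynomial.coeff_C_mul, Polynomial.coeff_X_pow, if_pos rfl, mul_one]
    · intro n _ hne
      split_ifs with hn
      · rw [Polynomial.coeff_C_mul, Polynomial.coeff_X_pow, if_neg, mul_zero]
        intro hmn
        apply hne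
        rw [ext_iff']
        refine ⟨?_, hmn.symm⟩
        unfold wt at hn hmD
        rw [hmn] at hmD
        have h2 : w0 * (n 0 : ℤ) = w0 * (m 0 : ℤ) := by linarith
        have h3 := mul_left_cancel₀ hw0.ne' h2
        exact_mod_cast h3
      · simp
    · intro hn
      exact absurd (mem_support_iff.2 hm) hn
  rw [h0, Polynomial.coeff_zero] at h1
  exact hm h1.symm

theorem S_DH_of_S_PH : S_PH.{u} → S_DH.{u} := by
  intro hPH k _ _ _ f g c hc hJ w0 w1 D hw0 hw hD hTop hdeg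
  have hf : ∀ m, coeff m f ≠ 0 → wt w0 w1 m ≤ D := hTop.1
  -- the top weight of `g`
  have hg0 : g ≠ 0 := by
    rintro rfl
    have : J f (0 : MvPolynomial (Fin 2) k) = 0 := by unfold J; simp
    rw [this] at hJ
    exact hc (C_eq_zero.1 hJ.symm)
  obtain ⟨m0, hm0, hmax⟩ := Finset.exists_max_image g.support (wt w0 w1)
    (support_nonempty.2 hg0)
  set E : ℤ := wt w0 w1 m0 with hE
  have hg : ∀ m, coeff m g ≠ 0 → wt w0 w1 m ≤ E := fun m hm => hmax m (mem_support_iff.2 hm)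
  have hgE : ∃ m, coeff m g ≠ 0 ∧ wt w0 w1 m = E := ⟨m0, mem_support_iff.1 hm0, rfl⟩
  -- the weight of `(1, 1)`
  have hDE : w0 + w1 ≤ D + E := by
    have h1 := coeff_XXJ f g (e 1 1)
    rw [hJ, coeff_XX_C, if_pos rfl] at h1
    have h2 : ∑ x ∈ Finset.HasAntidiagonal.antidiagonal (e 1 1),
      (((x.1 0 : ℕ) : k) * ((x.2 1 : ℕ) : k) - ((x.1 1 : ℕ) : k) * ((x.2 0 : ℕ) : k)) *
        (coeff x.1 f * coeff x.2 g) ≠ 0 := by
      rw [← h1]; exact hc
    obtain ⟨x, hx, hx0⟩ := Finset.exists_ne_zero_of_sum_ne_zero h2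
    have h3 := right_ne_zero_of_mul hx0
    have h4 := hf x.1 (left_ne_zero_of_mul h3)
    have h5 := hg x.2 (right_ne_zero_of_mul h3)
    rw [Finset.HasAntidiagonal.mem_antidiagonal] at hx
    have h6 : x.1 0 + x.2 0 = 1 := by simpa using DFunLike.congr_fun hx 0
    have h7 : x.1 1 + x.2 1 = 1 := by simpa using DFunLike.congr_fun hx 1
    unfold wt at h4 h5
    have h6' : (x.1 0 : ℤ) + (x.2 0 : ℤ) = 1 := by exact_mod_cast h6
    have h7' : (x.1 1 : ℤ) + (x.2 1 : ℤ) = 1 := by exact_mod_cast h7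
    have h8 : w0 * (x.1 0 : ℤ) + w1 * (x.1 1 : ℤ) + (w0 * (x.2 0 : ℤ) + w1 * (x.2 1 : ℤ)) =
        w0 * ((x.1 0 : ℤ) + (x.2 0 : ℤ)) + w1 * ((x.1 1 : ℤ) + (x.2 1 : ℤ)) := by ring
    rw [h6', h7'] at h8
    linarith
  obtain ⟨μ, hμ⟩ := Int.eq_ofNat_of_zero_le (sub_nonneg.2 hDE)
  have hBB : BB D E (sh w0 w1 D f) (sh w0 w1 E g) = C (-(w0 : k) * c) * X 0 ^ μ := by
    have h1 := Df_eq_zero w0 w1 D E f g hf hg
    unfold Df at h1
    have h2 : (X 0 * X 1 * J f g : MvPolynomial (Fin 2) k) = monomial (e 1 1) c := by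
      rw [hJ, e, X, X, monomial_mul, mul_comm, C_mul_monomial]
      simp
    have h3 : (D + E - wt w0 w1 (e 1 1)).toNat = μ := by
      have : D + E - wt w0 w1 (e 1 1) = (μ : ℤ) := by
        rw [← hμ]
        unfold wt
        simp
      rw [this, Int.toNat_natCast]
    rw [h2, sh_monomial, h3, e_one] at h1
    have h4 : (monomial (e μ 1) c : MvPolynomial (Fin 2) k) = X 1 * (C c * X 0 ^ μ) := by
      rw [C_mul_X_pow_eq_monomial, X, monomial_mul, one_mul, add_comm, e]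
    rw [h4] at h1
    have h5 : X 1 * BB D E (sh w0 w1 D f) (sh w0 w1 E g) =
        X 1 * (C (-(w0 : k) * c) * X 0 ^ μ) := by
      rw [map_mul, map_neg]
      linear_combination h1
    exact mul_left_cancel₀ (X_ne_zero 1) h5
  have hw0k : (w0 : k) ≠ 0 := by exact_mod_cast hw0.ne'
  have hwt : D + E - (μ : ℤ) = w0 + w1 := by
    have : D + E - (w0 + w1) = (μ : ℤ) := hμ
    linarith
  have hev : ev0 (sh w0 w1 D f) = dh w0 w1 D f := ev0_sh w0 w1 D f hf
  have hevg : ev0 (sh w0 w1 E g) = dh w0 w1 E g := ev0_sh w0 w1 E g hg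
  obtain ⟨φ, hφ⟩ := hPH k (sh w0 w1 D f) (sh w0 w1 E g) D E μ (-(w0 : k) * c)
    (mul_ne_zero (neg_ne_zero.2 hw0k) hc) hD (by rw [hwt]; exact hw) hBB
    (by rw [hev]; exact hdeg) (by rw [hevg]; exact dh_ne_zero w0 w1 E hw0 g hgE)
  rw [hwt, hev] at hφ
  exact ⟨φ, hφ⟩

end Pool.Agent.W696.J6
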